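import Pool.Agent.Helper84.TN.Main

/-!
# Sets of integers with small representation function have large tree rank
-/

namespace Pool.Agent.Helper84.TN

open Pool.Agent.Helper82.CF

open scoped Pointwise

/-- the number with base `b` digits `w` -/
def value {n b : ℕ} (w : Fin n → Fin b) : ℕ := ∑ i, (w i : ℕ) * b ^ (i : ℕ)

theorem value_injective {n b : ℕ} : Function.Injective (value : (Fin n → Fin b) → ℕ) := by
  intro w w' h
  apply (finFunctionFinEquiv (m := b) (n := n)).injective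
  apply Fin.ext
  rw [finFunctionFinEquiv_apply, finFunctionFinEquiv_apply]
  exact h

/-- a set with few representations up to `2 x` has no large proper cube up to `x` -/
theorem no_cube {A : Set ℕ} {k x : ℕ} (hg : ∀ m ≤ 2 * x, rep A m < 2 ^ (k + 1)) {S : Finset ℤ}
    (hS : ∀ z ∈ S, ∃ a ∈ A, a ≤ x ∧ (a : ℤ) = z) (c : ℤ) (l : List ℤ) (hl : l.length = k + 1)
    (hc : (cube l).card = 2 ^ l.length) : ¬ ({c} + cube l ⊆ S) := by
  intro hs
  have hB : ∀ n, rep {a | a ∈ A ∧ a ≤ x} n < 2 ^ (k + 1) := by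
    intro n
    rcases Nat.lt_or_ge (2 * x) n with h | h
    · have h0 : rep {a | a ∈ A ∧ a ≤ x} n = 0 := by
        unfold rep
        rw [Set.ncard_eq_zero (rep_finite _ n)]
        ext p
        simp only [Set.mem_ofPred_eq, Set.mem_empty_iff_false, iff_false]
        rintro ⟨⟨-, h1⟩, ⟨-, h2⟩, h3⟩
        omega
      rw [h0]
      positivity
    · refine lt_of_le_of_lt ?_ (hg n h)
      refine Set.ncard_le_ncard ?_ (rep_finite A n)
      rintro p ⟨h1, h2, h3⟩
      exact ⟨h1.1, h2.1, h3⟩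
  obtain ⟨n, hn⟩ := cube_rep (A := {a | a ∈ A ∧ a ≤ x}) (c := c) (l := l) (fun z hz => by
    obtain ⟨a, ha, hax, haz⟩ := hS z (hs hz)
    exact ⟨a, ⟨ha, hax⟩, haz⟩)
  have h2 := hB n
  rw [hc, hl] at hn
  omega

open Classical in
/-- the number of words where `f` is not zero -/
noncomputable def size {ι β F : Type*} [Fintype ι] [Fintype β] [Zero F] (f : (ι → β) → F) : ℕ :=
  (Finset.univ.filter fun w => f w ≠ 0).card

theorem int_bound {F : Type*} [Field F] {A : Set ℕ} {n b x s k : ℕ} (T : Tree (Fin n))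
    (hT : T.Proper) (huniv : T.set = Finset.univ) (f : (Fin n → Fin b) → F) (hs : 1 ≤ s)
    (hr : ∀ D ∈ T.blocks, rk f D ≤ s) (hA : ∀ w, f w ≠ 0 → value w ∈ A ∧ value w ≤ x)
    (hg : ∀ m ≤ 2 * x, rep A m < 2 ^ (k + 1)) :
    size f ≤ (n * (b + 1)) ^ k * s ^ (3 * (2 ^ k - 1)) := by
  classical
  set e : Fin n → Fin b → ℤ := fun i d => (((d : ℕ) * b ^ (i : ℕ) : ℕ) : ℤ) with he
  have hval : ∀ w : Fin n → Fin b, ∑ i, e i (w i) = ((value w : ℕ) : ℤ) := by
    intro w
    rw [value, Nat.cast_sum]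
  have hinj : Function.Injective fun w : Fin n → Fin b => ∑ i, e i (w i) := by
    intro w w' h
    simp only [hval] at h
    exact value_injective (by exact_mod_cast h)
  set S : Finset ℤ := (Finset.univ.filter fun w => f w ≠ 0).image fun w => ∑ i, e i (w i) with hS
  have h1 := low_rank e hinj T hT huniv f S ?_ ?_ s k hs hr ?_
  · rw [Fintype.card_fin, Fintype.card_fin] at h1
    have h2 : S.card = size f := by
      rw [hS, Finset.card_image_of_injective _ hinj, size]
      refine congrArg Finset.card ?_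
      ext w
      simp only [Finset.mem_filter, Finset.mem_univ, true_and]
    rwa [h2] at h1
  · intro w
    rw [hS, Finset.mem_image]
    constructor
    · intro h
      exact ⟨w, Finset.mem_filter.2 ⟨Finset.mem_univ _, h⟩, rfl⟩
    · rintro ⟨w', hw', h⟩
      have := hinj h
      subst this
      exact (Finset.mem_filter.1 hw').2
  · intro g hg
    obtain ⟨w, -, rfl⟩ := Finset.mem_image.1 hg
    exact ⟨w, rfl⟩
  · intro c l hl hc
    refine no_cube hg ?_ c l hl hc
    intro z hz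
    obtain ⟨w, hw, rfl⟩ := Finset.mem_image.1 hz
    obtain ⟨h2, h3⟩ := hA w (Finset.mem_filter.1 hw).2
    exact ⟨value w, h2, h3, (hval w).symm⟩

theorem one_le_rep {A : Set ℕ} {a : ℕ} (ha : a ∈ A) : 1 ≤ rep A (2 * a) := by
  rw [rep, Nat.succ_le_iff, Set.ncard_pos (rep_finite A _)]
  exact ⟨(a, a), ha, ha, by ring⟩

/-- the arithmetic of the rate -/
theorem rate_arith {M N Q : ℕ} (hN : 1 ≤ N) (hQ : 2 ≤ Q) (hM : 1 ≤ M)
    (h : ∀ k, M < 2 ^ (k + 1) → N ≤ Q ^ (3 * 2 ^ k)) :
    Real.log N / (3 * Real.log Q) ≤ M := by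
  have hk : M < 2 ^ (Nat.log 2 M + 1) := Nat.lt_pow_succ_log_self (by norm_num) M
  have h1 := h _ hk
  have h2 : 2 ^ Nat.log 2 M ≤ M := Nat.pow_log_le_self 2 (by omega)
  have h3 : N ≤ Q ^ (3 * M) := h1.trans (Nat.pow_le_pow_right (by omega) (by omega))
  have hQ' : (1 : ℝ) < Q := by exact_mod_cast (by omega : 1 < Q)
  have hlQ : 0 < Real.log Q := Real.log_pos hQ'
  have h4 : Real.log N ≤ (3 * M : ℕ) * Real.log Q := by
    have h5 : (N : ℝ) ≤ (Q : ℝ) ^ (3 * M) := by exact_mod_cast h3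
    have h6 := Real.log_le_log (by exact_mod_cast hN) h5
    rwa [Real.log_pow] at h6
  rw [div_le_iff₀ (by positivity)]
  push_cast at h4
  linarith

theorem int_rate {F : Type*} [Field F] {A : Set ℕ} {n b x s : ℕ} (T : Tree (Fin n))
    (hT : T.Proper) (huniv : T.set = Finset.univ) (f : (Fin n → Fin b) → F) (hs : 1 ≤ s)
    (hr : ∀ D ∈ T.blocks, rk f D ≤ s) (hA : ∀ w, f w ≠ 0 → value w ∈ A ∧ value w ≤ x) :
    ∃ m ≤ 2 * x, Real.log (size f) / (3 * Real.log (n * (b + 1) * s)) ≤ rep A m := by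
  classical
  rcases Nat.eq_zero_or_pos (size f) with h0 | h0
  · refine ⟨0, Nat.zero_le _, ?_⟩
    rw [h0]
    simp
  obtain ⟨m, hm, hmax⟩ := Finset.exists_max_image (Finset.range (2 * x + 1)) (rep A)
    ⟨0, Finset.mem_range.2 (Nat.succ_pos _)⟩
  refine ⟨m, by have := Finset.mem_range.1 hm; omega, ?_⟩
  obtain ⟨w, hw⟩ := Finset.card_pos.1 h0
  have hw' := hA w (Finset.mem_filter.1 hw).2
  have hM : 1 ≤ rep A m := (one_le_rep hw'.1).trans
    (hmax (2 * value w) (Finset.mem_range.2 (by have := hw'.2; omega)))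
  have hn : 1 ≤ n := by
    have h1 := Tree.card_set hT
    rw [huniv, Finset.card_univ, Fintype.card_fin] at h1
    rw [h1]
    exact T.one_le_leaves
  have hb : 1 ≤ b := by
    have := (w ⟨0, hn⟩).pos
    omega
  have hQ : 2 ≤ n * (b + 1) * s := by
    calc 2 = 1 * 2 * 1 := by norm_num
      _ ≤ n * (b + 1) * s := Nat.mul_le_mul (Nat.mul_le_mul hn (by omega)) hs
  have h := rate_arith (M := rep A m) (N := size f) (Q := n * (b + 1) * s) h0
    hQ hM ?_
  · push_cast at h
    exact h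
  · intro k hk
    refine (int_bound T hT huniv f hs hr hA fun m' hm' =>
      (hmax m' (Finset.mem_range.2 (by omega))).trans_lt hk).trans ?_
    have h2k : k < 2 ^ k := Nat.lt_two_pow_self
    calc (n * (b + 1)) ^ k * s ^ (3 * (2 ^ k - 1))
        ≤ (n * (b + 1)) ^ (3 * 2 ^ k) * s ^ (3 * 2 ^ k) := by
          refine Nat.mul_le_mul (Nat.pow_le_pow_right (Nat.mul_pos (by omega) (by omega))
            (by omega)) (Nat.pow_le_pow_right (by omega) (by omega))
      _ = (n * (b + 1) * s) ^ (3 * 2 ^ k) := by rw [← mul_pow]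

end Pool.Agent.Helper84.TN
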