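import Pool.Agent.Helper84.TN.Int

/-!
# Support rank

The function and the field may depend on the node of the tree.
-/

namespace Pool.Agent.Helper84.TN

open Pool.Agent.Helper82.CF

open scoped Pointwise

section

variable {ι β : Type*} [DecidableEq ι] [Fintype ι] [Fintype β] [DecidableEq β]

/-- Some matrix over some field whose rows are the letters in `D` and whose columns are the letters
outside `D`, with entries different from zero exactly at the words in `S`, has rank at most
`s`. -/
def SuppRank {ι β : Type*} [DecidableEq ι] (S : Finset (ι → β)) (D : Finset ι) (s : ℕ) : Prop :=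
  ∃ (F : Type) (_ : Field F) (f : (ι → β) → F), (∀ w, f w ≠ 0 ↔ w ∈ S) ∧ rk f D ≤ s

theorem card_le_of_suppRank (z : ι → β) (T : Tree ι) (hT : T.Proper)
    (huniv : T.set = Finset.univ) :
    ∀ (k s : ℕ) (S : Finset (ι → β)), 1 ≤ s → (∀ D ∈ T.blocks, SuppRank S D s) →
      ¬ Box z (k + 1) (S : Set (ι → β)) →
      S.card ≤ bd (Fintype.card ι) (Fintype.card β) k s := by
  classical
  intro k
  induction k with
  | zero =>
    intro s S hs hr hno
    have h1 : bd (Fintype.card ι) (Fintype.card β) 0 s = 1 := by simp [bd]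
    rw [h1, Finset.card_le_one]
    intro a ha a' ha'
    by_contra hne
    apply hno
    refine ⟨Finset.univ, a, a', ?_, z, ?_, ?_, ?_⟩
    · by_contra h
      push Not at h
      exact hne (funext fun i => h i (Finset.mem_univ _))
    · intro i _; rfl
    · rw [Finset.piecewise_univ]
      exact ha
    · rw [Finset.piecewise_univ]
      exact ha'
  | succ k ih =>
    intro s S hs hr hno
    set P := bd (Fintype.card ι) (Fintype.card β) k (s ^ 2) with hP
    have hn : 1 ≤ T.leaves := T.one_le_leaves
    have hcard : T.leaves = Fintype.card ι := by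
      rw [← Tree.card_set hT, huniv, Finset.card_univ]
    have hP1 : 1 ≤ P := by
      rw [hP, bd]
      have h1 : 1 ≤ Fintype.card ι * (Fintype.card β + 1) :=
        Nat.mul_pos (by omega) (Nat.succ_pos _)
      exact Nat.mul_pos (pow_pos h1 _) (pow_pos (pow_pos hs _) _)
    set com : Finset ι → (ι → β) → (ι → β) → Finset (ι → β) := fun D v v' =>
      Finset.univ.filter fun w => (∀ i ∈ D, w i = z i) ∧ D.piecewise v w ∈ S ∧
        D.piecewise v' w ∈ S with hcomdef
    have hcommon : ∀ {F : Type} [Field F] (f : (ι → β) → F), (∀ w, f w ≠ 0 ↔ w ∈ S) →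
        ∀ D v v' w, common f D z v v' w ≠ 0 ↔ w ∈ com D v v' := by
      intro F _ f hf D v v' w
      rw [hcomdef]
      simp only [Finset.mem_filter, Finset.mem_univ, true_and]
      change f (D.piecewise v w) * f (D.piecewise v' w) * ind F D z w ≠ 0 ↔ _
      by_cases hw : ∀ i ∈ D, w i = z i
      · rw [ind_pos hw, mul_one, mul_ne_zero_iff, hf, hf]
        exact ⟨fun h => ⟨hw, h⟩, fun h => h.2⟩
      · rw [ind_neg hw, mul_zero]
        exact ⟨fun h => absurd rfl h, fun h => absurd h.1 hw⟩
    have hcom : ∀ D ∈ T.blocks, ∀ v v' : ι → β, (∃ i ∈ D, v i ≠ v' i) →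
        (com D v v').card ≤ P := by
      intro D hD v v' hvv
      apply ih (s ^ 2) (com D v v') (Nat.one_le_pow _ _ hs)
      · intro E hE
        obtain ⟨F, hF, f, hf, hfr⟩ := hr E hE
        exact ⟨F, hF, common f D z v v', hcommon f hf D v v',
          rk_common f hs hfr (Tree.laminar hT hD hE) z v v'⟩
      · intro hb
        apply hno
        refine ⟨D, v, v', hvv, ?_⟩
        convert hb using 1
        ext w
        simp only [hcomdef, Finset.coe_filter, Finset.mem_univ, true_and, Finset.mem_coe]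
    have h1 := count S (s * P) s T fun D hD V hV hne => by
      obtain ⟨F, hF, f, hf, hfr⟩ := hr D hD
      have e1 : supp f = S := by
        ext w
        rw [mem_supp, hf]
      refine heavy z f hfr (P := P) ?_ V (by rw [e1]; exact hV) hne
      intro v v' hvv
      have e2 : supp (common f D z v v') = com D v v' := by
        ext w
        rw [mem_supp, hcommon f hf]
      rw [e2]
      exact hcom D hD v v' hvv
    have h2 : S.filter (fun a => (cls S T.set a).card ≤ s * P) = S := by
      rw [Finset.filter_eq_self]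
      intro a ha
      have h3 : cls S T.set a ⊆ {a} := by
        intro x hx
        rw [Finset.mem_singleton]
        obtain ⟨-, hx2⟩ := mem_cls.1 hx
        ext i
        exact hx2 i (by rw [huniv]; exact Finset.mem_univ _)
      calc (cls S T.set a).card ≤ ({a} : Finset (ι → β)).card := Finset.card_le_card h3
        _ = 1 * 1 := by simp
        _ ≤ s * P := Nat.mul_le_mul hs hP1
    rw [h2] at h1
    rw [bd_succ, ← hP]
    calc S.card ≤ T.leaves * ((Fintype.card β + s ^ 2) * (s * P)) :=
          (Nat.le_add_right _ _).trans h1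
      _ ≤ T.leaves * (((Fintype.card β + 1) * s ^ 2) * (s * P)) := by
          refine Nat.mul_le_mul_left _ (Nat.mul_le_mul_right _ ?_)
          have : 1 ≤ s ^ 2 := Nat.one_le_pow _ _ hs
          nlinarith
      _ = Fintype.card ι * (Fintype.card β + 1) * s ^ 3 * P := by
          rw [hcard]
          ring

/-- **The theorem, general form.** -/
theorem suppRank_bound {G : Type*} [AddCommGroup G] [DecidableEq G] (e : ι → β → G)
    (hinj : Function.Injective fun w : ι → β => ∑ i, e i (w i))
    (T : Tree ι) (hT : T.Proper) (huniv : T.set = Finset.univ)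
    (S : Finset (ι → β)) (s k : ℕ) (hs : 1 ≤ s) (hr : ∀ D ∈ T.blocks, SuppRank S D s)
    (hno : ∀ (c : G) (l : List G), l.length = k + 1 → (cube l).card = 2 ^ l.length →
      ¬ ({c} + cube l ⊆ S.image fun w => ∑ i, e i (w i))) :
    S.card ≤ (Fintype.card ι * (Fintype.card β + 1)) ^ k * s ^ (3 * (2 ^ k - 1)) := by
  classical
  rcases S.eq_empty_or_nonempty with he | ⟨z, hz⟩
  · rw [he]
    simp
  refine card_le_of_suppRank z T hT huniv k s S hs hr ?_
  intro hb
  obtain ⟨c, l, hl, hcard, hsub⟩ := cube_of_box e hinj z (k + 1) _ hb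
  refine hno c l hl (by rw [hl]; exact hcard) ?_
  intro x hx
  obtain ⟨w, hw, rfl⟩ := hsub x hx
  exact Finset.mem_image_of_mem _ (Finset.mem_coe.1 hw)

end

/-- the support rank of a nonempty set is positive -/
theorem SuppRank.pos {ι β : Type*} [DecidableEq ι] [Finite ι] [Finite β] {S : Finset (ι → β)}
    {D : Finset ι} {s : ℕ} (h : SuppRank S D s) (hS : S.Nonempty) : 1 ≤ s := by
  obtain ⟨F, hF, f, hf, hr⟩ := h
  obtain ⟨v, hv⟩ := hS
  refine le_trans ?_ hr
  have h1 := card_le_rk f D {v} (by
    intro u hu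
    rw [Finset.mem_singleton] at hu
    subst hu
    refine ⟨u, by rw [Finset.piecewise_same]; exact (hf u).2 hv, fun v' hv' hne => ?_⟩
    exact absurd (Finset.mem_singleton.1 hv') hne)
  rwa [Finset.card_singleton] at h1

theorem supp_int_bound {A : Set ℕ} {n b x s k : ℕ} (T : Tree (Fin n)) (hT : T.Proper)
    (huniv : T.set = Finset.univ) (S : Finset (Fin n → Fin b)) (hs : 1 ≤ s)
    (hr : ∀ D ∈ T.blocks, SuppRank S D s) (hA : ∀ w ∈ S, value w ∈ A ∧ value w ≤ x)
    (hg : ∀ m ≤ 2 * x, rep A m < 2 ^ (k + 1)) :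
    S.card ≤ (n * (b + 1)) ^ k * s ^ (3 * (2 ^ k - 1)) := by
  classical
  set e : Fin n → Fin b → ℤ := fun i d => (((d : ℕ) * b ^ (i : ℕ) : ℕ) : ℤ) with he
  have hval : ∀ w : Fin n → Fin b, ∑ i, e i (w i) = ((value w : ℕ) : ℤ) := by
    intro w
    rw [value, Nat.cast_sum]
  have hinj : Function.Injective fun w : Fin n → Fin b => ∑ i, e i (w i) := by
    intro w w' h
    simp only [hval] at h
    exact value_injective (by exact_mod_cast h)
  have h1 := suppRank_bound e hinj T hT huniv S s k hs hr ?_
  · rwa [Fintype.card_fin, Fintype.card_fin] at h1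
  · intro c l hl hc
    refine no_cube hg ?_ c l hl hc
    intro z hz
    obtain ⟨w, hw, rfl⟩ := Finset.mem_image.1 hz
    obtain ⟨h2, h3⟩ := hA w hw
    exact ⟨value w, h2, h3, (hval w).symm⟩

theorem supp_int_rate {A : Set ℕ} {n b x s : ℕ} (T : Tree (Fin n)) (hT : T.Proper)
    (huniv : T.set = Finset.univ) (S : Finset (Fin n → Fin b)) (hne : S.Nonempty)
    (hr : ∀ D ∈ T.blocks, SuppRank S D s) (hA : ∀ w ∈ S, value w ∈ A ∧ value w ≤ x) :
    ∃ m ≤ 2 * x, Real.log S.card / (3 * Real.log (n * (b + 1) * s)) ≤ rep A m := by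
  classical
  have hs : 1 ≤ s := (hr _ T.set_mem_blocks).pos hne
  obtain ⟨m, hm, hmax⟩ := Finset.exists_max_image (Finset.range (2 * x + 1)) (rep A)
    ⟨0, Finset.mem_range.2 (Nat.succ_pos _)⟩
  refine ⟨m, by have := Finset.mem_range.1 hm; omega, ?_⟩
  obtain ⟨w, hw⟩ := hne
  have hw' := hA w hw
  have hM : 1 ≤ rep A m := (one_le_rep hw'.1).trans
    (hmax (2 * value w) (Finset.mem_range.2 (by have := hw'.2; omega)))
  have hn : 1 ≤ n := by
    have h1 := Tree.card_set hT
    rw [huniv, Finset.card_univ, Fintype.card_fin] at h1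
    rw [h1]
    exact T.one_le_leaves
  have hb : 1 ≤ b := by
    have := (w ⟨0, hn⟩).pos
    omega
  have hQ : 2 ≤ n * (b + 1) * s := by
    calc 2 = 1 * 2 * 1 := by norm_num
      _ ≤ n * (b + 1) * s := Nat.mul_le_mul (Nat.mul_le_mul hn (by omega)) hs
  have h := rate_arith (M := rep A m) (N := S.card) (Q := n * (b + 1) * s)
    (Finset.card_pos.2 ⟨w, hw⟩) hQ hM ?_
  · push_cast at h
    exact h
  · intro k hk
    refine (supp_int_bound T hT huniv S hs hr hA fun m' hm' =>
      (hmax m' (Finset.mem_range.2 (by omega))).trans_lt hk).trans ?_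
    have h2k : k < 2 ^ k := Nat.lt_two_pow_self
    calc (n * (b + 1)) ^ k * s ^ (3 * (2 ^ k - 1))
        ≤ (n * (b + 1)) ^ (3 * 2 ^ k) * s ^ (3 * 2 ^ k) := by
          refine Nat.mul_le_mul (Nat.pow_le_pow_right (Nat.mul_pos (by omega) (by omega))
            (by omega)) (Nat.pow_le_pow_right (by omega) (by omega))
      _ = (n * (b + 1) * s) ^ (3 * 2 ^ k) := by rw [← mul_pow]

end Pool.Agent.Helper84.TN
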