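import Mathlib
import Pool.Agent.Helper84.TN.Int

/-!
MP_12a1af_nt (Erdős–Turán): functions whose support consists of elements of a set with small
representation function have large rank along every binary tree of the digit positions.
-/

namespace Pool.Agent.Helper84.TN.LowRank

open Pool.Agent.Helper84.TN
open Pool.Agent.Helper82.CF (rep)

/-- `rep A m` is the number of ordered pairs `(a, a') ∈ A × A` with `a + a' = m`; `value w` is the
number with the base `b` digits `w`; for a function `f` on the words with values in a field `F`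
and a set `D` of positions, `rk f D` is the rank over `F` of the matrix `(f (u, v))`, `u` the
digits in `D`, `v` the other digits; `size f` is the number of words where `f` is not zero.

Let `T` be a binary tree whose leaves are the `n` positions, each once (`T.Proper` and
`T.set = univ`), `rk f D ≤ s` for the leaf set `D` of each subtree of `T` (`D ∈ T.blocks`), `s ≥ 1`,
and let the numbers where `f` is not zero be elements of `A` up to `x`. Then
`r_A(m) ≥ log (size f) / (3 log (n (b + 1) s))` for some `m ≤ 2 x`, and if `r_A(m) < 2 ^ (k + 1)`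
for all `m ≤ 2 x`, then `size f ≤ (n (b + 1)) ^ k * s ^ (3 (2 ^ k - 1))`. -/
theorem result {F : Type*} [Field F] (A : Set ℕ) (n b x s : ℕ) (T : Tree (Fin n))
    (f : (Fin n → Fin b) → F) (hT : T.Proper) (huniv : T.set = Finset.univ) (hs : 1 ≤ s)
    (hr : ∀ D ∈ T.blocks, rk f D ≤ s) (hA : ∀ w, f w ≠ 0 → value w ∈ A ∧ value w ≤ x) :
    (∃ m ≤ 2 * x, Real.log (size f) / (3 * Real.log (n * (b + 1) * s)) ≤ rep A m) ∧
    ∀ k : ℕ, (∀ m ≤ 2 * x, rep A m < 2 ^ (k + 1)) →
      size f ≤ (n * (b + 1)) ^ k * s ^ (3 * (2 ^ k - 1)) :=
  ⟨int_rate T hT huniv f hs hr hA, fun _ hk => int_bound T hT huniv f hs hr hA hk⟩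

end Pool.Agent.Helper84.TN.LowRank
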