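import Mathlib
import Pool.Agent.Helper84.TN.Int
import Pool.Agent.Helper79.TN.Net

/-!
MP_12a1af_nt (Erdős–Turán): functions whose support consists of elements of a set with small
representation function have large rank along every binary tree of the digit positions; networks
computing them have large treewidth.
-/

namespace Pool.Agent.Helper84.TN.LowRankV2

open Pool.Agent.Helper84.TN Pool.Agent.Helper79.TN
open Pool.Agent.Helper82.CF (rep)

/-- The bound for `N` numbers up to `x` in `A` and the rank `s`. -/
def Bound (A : Set ℕ) (x n b N s : ℕ) : Prop :=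
  (∃ m ≤ 2 * x, Real.log N / (3 * Real.log (n * (b + 1) * s)) ≤ rep A m) ∧
    ∀ k : ℕ, (∀ m ≤ 2 * x, rep A m < 2 ^ (k + 1)) →
      N ≤ (n * (b + 1)) ^ k * s ^ (3 * (2 ^ k - 1))

/-- `rep A m` is the number of ordered pairs `(a, a') ∈ A × A` with `a + a' = m`; `value v` is the
number with the base `b` digits `v`; for a function `f` on the words with values in a field `F`
and a set `D` of positions, `rk f D` is the rank over `F` of the matrix `(f (u, v))`, `u` the
digits in `D`, `v` the other digits; `size f` is the number of words where `f` is not zero.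

Let `f` be not zero somewhere and the numbers where `f` is not zero be elements of `A` up to `x`.
(1) Let `T` be a binary tree whose leaves are the `n` positions, each once, and `rk f D ≤ s` for
the leaf set `D` of each subtree of `T`. Then `r_A(m) ≥ log (size f) / (3 log (n (b + 1) s))` for
some `m ≤ 2 x`, and if `r_A(m) < 2 ^ (k + 1)` for all `m ≤ 2 x`, then
`size f ≤ (n (b + 1)) ^ k * s ^ (3 (2 ^ k - 1))`.
(2) The same holds with `s = b ^ w` if `f` is given by a network with a tree decomposition of
width less than `w`: there are finitely many variables with values in the digits, the digit `i`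
being the variable `e i`, and tensors `φ t` which depend only on the variables in `B t`, `f v` is
the sum over all values of the variables with `e i = v i` of the product of the tensors, and the
variables are distributed to the bags of a binary tree `T`, at most `w` in each bag, such that the
bags which contain a variable are connected and each `B t` is contained in a bag. -/
theorem result {F : Type*} [Field F] (A : Set ℕ) (n b x : ℕ) (f : (Fin n → Fin b) → F)
    (hn : 1 ≤ n) (hf : ∃ v, f v ≠ 0) (hA : ∀ v, f v ≠ 0 → value v ∈ A ∧ value v ≤ x) :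
    (∀ (s : ℕ) (T : Tree (Fin n)), T.Proper → T.set = Finset.univ →
      (∀ D ∈ T.blocks, rk f D ≤ s) → Bound A x n b (size f) s) ∧
    (∀ (w : ℕ) (V τ : Type) [Fintype V] [DecidableEq V] [Fintype τ] [DecidableEq τ]
      (e : Fin n → V) (B : τ → Finset V) (φ : τ → (V → Fin b) → F) (T : TD V),
      Net e B φ f → T.Ok → (∀ X ∈ T.bags, X.card ≤ w) → (∀ t, ∃ X ∈ T.bags, B t ⊆ X) →
      (∀ i, ∃ X ∈ T.bags, e i ∈ X) → Bound A x n b (size f) (b ^ w)) := by
  have key : ∀ (s : ℕ) (T : Tree (Fin n)), T.Proper → T.set = Finset.univ →
      (∀ D ∈ T.blocks, rk f D ≤ s) → Bound A x n b (size f) s := by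
    intro s T hT huniv hr
    have hs : 1 ≤ s := by
      obtain ⟨v, hv⟩ := hf
      have h1 := card_le_rk f T.set {v} (by
        intro u hu
        rw [Finset.mem_singleton] at hu
        subst hu
        refine ⟨u, by rwa [Finset.piecewise_same], fun v' hv' hne => ?_⟩
        exact absurd (Finset.mem_singleton.1 hv') hne)
      rw [Finset.card_singleton] at h1
      exact h1.trans (hr _ T.set_mem_blocks)
    exact ⟨int_rate T hT huniv f hs hr hA, fun _ hk => int_bound T hT huniv f hs hr hA hk⟩
  refine ⟨key, ?_⟩
  intro w V τ _ _ _ _ e B φ T hN hT hw hB he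
  haveI : Nonempty (Fin n) := ⟨⟨0, hn⟩⟩
  haveI : Nonempty (Fin b) := by
    obtain ⟨v, -⟩ := hf
    exact ⟨v ⟨0, hn⟩⟩
  obtain ⟨T', h1, h2, h3⟩ := exists_tree hN T hT w hw hB he
  rw [Fintype.card_fin] at h3
  exact key _ T' h1 h2 h3

end Pool.Agent.Helper84.TN.LowRankV2
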