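import Mathlib
import Pool.Agent.Helper84.TN.Supp
import Pool.Agent.Helper79.TN.Net
import Pool.Agent.Helper29.LR.RateSupp
import Pool.Agent.Helper1.LR.All
import Pool.Agent.Helper45.TN.Rect

/-!
MP_12a1af_nt (Erdős–Turán): sets of elements of a set with small representation function, and
choices of representations, have large support rank (communication complexity) along every binary
tree of the digit positions.
-/

namespace Pool.Agent.Helper84.TN.LowRankV3

open Pool.Agent.Helper84.TN Pool.Agent.Helper79.TN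
open Pool.Agent.Helper82.CF (rep)

/-- For some binary tree whose leaves are the positions, each once, and for the leaf set `D` of each
of its subtrees, some matrix over some field (rows: the letters in `D`; columns: the other letters)
has rank at most `s` and is not zero exactly at the words in `S`. Matrix and field may depend on the
subtree. -/
def TreeRank {ι β : Type*} [DecidableEq ι] [Fintype ι] (S : Finset (ι → β)) (s : ℕ) : Prop :=
  ∃ T : Tree ι, T.Proper ∧ T.set = Finset.univ ∧ ∀ D ∈ T.blocks, SuppRank S D s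

/-- `S` is a union of `s` rectangles: sets of words given by a condition on the letters in `D` and
a condition on the letters outside `D`. -/
def Cover {ι β : Type*} (S : Finset (ι → β)) (D : Finset ι) (s : ℕ) : Prop :=
  ∃ P Q : Fin s → Set (ι → β), (∀ t v w, (∀ i ∈ D, v i = w i) → (v ∈ P t ↔ w ∈ P t)) ∧
    (∀ t v w, (∀ i, i ∉ D → v i = w i) → (v ∈ Q t ↔ w ∈ Q t)) ∧
    ∀ w, w ∈ S ↔ ∃ t, w ∈ P t ∧ w ∈ Q t

/-- `rep A m` is the number of ordered pairs `(a, a') ∈ A × A` with `a + a' = m`; `value v` is the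
number with the base `b` digits `v`; `Nat.log 2` is the integer part of the logarithm.

(1) Let `S` be a nonempty set of words of `n` digits which are elements of `A` up to `x`, of tree
rank at most `s`. Then `3 r log (n (b + 1) s) ≥ log |S|` for `r = r_A(m)`, some `m ≤ 2 x`, and
`|S| ≤ (n (b + 1)) ^ k * s ^ (3 (2 ^ k - 1))` if `r_A(m) < 2 ^ (k + 1)` for all `m ≤ 2 x`.
(2) If only `N > 0` of the words in `S` are elements of `A` up to `x`, then
`10 r (2 + log₂ r) log (32 n b s |S| / N) ≥ log |S|` for such an `r`. If the words in `S` are pairs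
`(c, a)` of words and for `N > 0` numbers `c` some `(c, a)` in `S` has `a` and `c - a` in `A`, up to
`x`, then `20 r² (3 + 2 log₂ r) log (64 n b s |S| / N) ≥ log |S|` for such an `r`.
(3) A union of `s` rectangles has support rank at most `s`; the support of the function computed by
a network of tensors with a tree decomposition, at most `w` variables in a bag, has tree rank at
most `|β| ^ w`.
(4) For `d < 1 / 2` there is `C` such that for all `n` and `M` with `C log n ≤ M ≤ n` some set of at
least `2 ^ (d n)` numbers below `2 ^ n` of tree rank at most `exp (C (n / M + log² n) log² n)` has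
`r(m) ≤ M` for all `m`. -/
theorem result :
    (∀ (A : Set ℕ) (n b x s : ℕ) (S : Finset (Fin n → Fin b)), S.Nonempty → TreeRank S s →
      (∀ v ∈ S, value v ∈ A ∧ value v ≤ x) →
      (∃ m ≤ 2 * x, Real.log S.card ≤ 3 * rep A m * Real.log (n * (b + 1) * s)) ∧
      ∀ k : ℕ, (∀ m ≤ 2 * x, rep A m < 2 ^ (k + 1)) →
        S.card ≤ (n * (b + 1)) ^ k * s ^ (3 * (2 ^ k - 1))) ∧
    (∀ (A : Set ℕ) (n b x s N : ℕ), 0 < N →
      (∀ S : Finset (Fin n → Fin b), TreeRank S s →
        N ≤ {a : ℕ | a ∈ A ∧ a ≤ x ∧ ∃ v ∈ S, value v = a}.ncard →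
        ∃ m ≤ 2 * x, Real.log S.card ≤ 10 * (Nat.log 2 (rep A m) + 2) * rep A m *
          Real.log (32 * n * b * s * S.card / N)) ∧
      ∀ S : Finset (Fin n ⊕ Fin n → Fin b), TreeRank S s →
        N ≤ {c : ℕ | ∃ v ∈ S, ∃ a : ℕ, value (v ∘ Sum.inl) = c ∧ value (v ∘ Sum.inr) = a ∧
          a ∈ A ∧ a ≤ x ∧ ∃ a' ∈ A, a' ≤ x ∧ a + a' = c}.ncard →
        ∃ m ≤ 2 * x, Real.log S.card ≤ 20 * (2 * Nat.log 2 (rep A m) + 3) * (rep A m : ℝ) ^ 2 *
          Real.log (64 * n * b * s * S.card / N)) ∧
    (∀ (ι β : Type) [Fintype ι] [DecidableEq ι] [Nonempty ι] [Fintype β] [DecidableEq β]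
      [Nonempty β] (S : Finset (ι → β)),
      (∀ (D : Finset ι) (s : ℕ), Cover S D s → SuppRank S D s) ∧
      ∀ (F V τ : Type) [Field F] [Fintype V] [DecidableEq V] [Fintype τ] [DecidableEq τ]
        (e : ι → V) (B : τ → Finset V) (φ : τ → (V → β) → F) (f : (ι → β) → F) (T : TD V) (w : ℕ),
        Net e B φ f → T.Ok → (∀ X ∈ T.bags, X.card ≤ w) → (∀ t, ∃ X ∈ T.bags, B t ⊆ X) →
        (∀ i, ∃ X ∈ T.bags, e i ∈ X) → (∀ v, f v ≠ 0 ↔ v ∈ S) →
        TreeRank S (Fintype.card β ^ w)) ∧
    ∀ d : ℝ, d < 1 / 2 → ∃ C : ℝ, ∀ n M : ℕ, 2 ≤ n → C * Real.log n ≤ M → M ≤ n →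
      ∃ (s : ℕ) (S : Finset (Fin n → Fin 2)), TreeRank S s ∧
        s ≤ Real.exp (C * (n / M + Real.log n ^ 2) * Real.log n ^ 2) ∧
        (2 : ℝ) ^ (d * n) ≤ S.card ∧ ∀ m, rep {a | ∃ v ∈ S, value v = a} m ≤ M := by
  have pos : ∀ {ι : Type} {b s : ℕ} [DecidableEq ι] [Fintype ι] {S : Finset (ι → Fin b)}
      {T : Tree ι}, (∀ D ∈ T.blocks, SuppRank S D s) → S.Nonempty → 1 ≤ s :=
    fun hr hne => (hr _ (Tree.set_mem_blocks _)).pos hne
  refine ⟨?_, ?_, ?_, ?_⟩
  · rintro A n b x s S hne ⟨T, hT, huniv, hr⟩ hA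
    obtain ⟨m, hm, h⟩ := supp_int_rate T hT huniv S hne hr hA
    refine ⟨⟨m, hm, ?_⟩, fun k hk => supp_int_bound T hT huniv S (pos hr hne) hr hA hk⟩
    have hn : 1 ≤ n := by
      have h1 := Tree.card_set hT
      rw [huniv, Finset.card_univ, Fintype.card_fin] at h1
      rw [h1]
      exact T.one_le_leaves
    have hb : 1 ≤ b := by
      obtain ⟨w, -⟩ := hne
      have := (w ⟨0, hn⟩).pos
      omega
    have hQ : 2 ≤ n * (b + 1) * s := by
      calc 2 = 1 * 2 * 1 := by norm_num
        _ ≤ n * (b + 1) * s := Nat.mul_le_mul (Nat.mul_le_mul hn (by omega)) (pos hr hne)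
    have hQ' : (1 : ℝ) < n * (b + 1) * s := by
      have : (2 : ℝ) ≤ n * (b + 1) * s := by exact_mod_cast hQ
      linarith
    have hlog : 0 < 3 * Real.log (n * (b + 1) * s) := by
      have := Real.log_pos hQ'
      linarith
    rw [div_le_iff₀ hlog] at h
    calc Real.log S.card ≤ rep A m * (3 * Real.log (n * (b + 1) * s)) := h
      _ = 3 * rep A m * Real.log (n * (b + 1) * s) := by ring
  · intro A n b x s N hN0
    constructor
    · rintro S ⟨T, hT, huniv, hr⟩ hN
      have hne : S.Nonempty := by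
        by_contra h0
        rw [Finset.not_nonempty_iff_eq_empty] at h0
        subst h0
        have h1 : {a : ℕ | a ∈ A ∧ a ≤ x ∧ ∃ v ∈ (∅ : Finset (Fin n → Fin b)), value v = a} = ∅ := by
          ext a
          simp
        rw [h1, Set.ncard_empty] at hN
        omega
      exact Helper29.LR.supp_words_rate T hT huniv S (pos hr hne) hr hN0 hN
    · rintro S ⟨T, hT, huniv, hr⟩ hN
      have hne : S.Nonempty := by
        by_contra h0
        rw [Finset.not_nonempty_iff_eq_empty] at h0
        subst h0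
        have h1 : {c : ℕ | ∃ v ∈ (∅ : Finset (Fin n ⊕ Fin n → Fin b)), ∃ a : ℕ,
            value (v ∘ Sum.inl) = c ∧ value (v ∘ Sum.inr) = a ∧
            a ∈ A ∧ a ≤ x ∧ ∃ a' ∈ A, a' ≤ x ∧ a + a' = c} = ∅ := by
          ext a
          simp
        rw [h1, Set.ncard_empty] at hN
        omega
      exact Helper29.LR.supp_choice_rate T hT huniv S (pos hr hne) hr hN0 hN
  · intro ι β _ _ _ _ _ _ S
    constructor
    · rintro D s ⟨P, Q, hP, hQ, hS⟩
      refine ⟨ℚ, inferInstance, ?_⟩
      obtain ⟨f, h1, h2⟩ := Helper45.TN.exists_of_rectangles (S : Set (ι → β)) D s P Q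
        (fun t v w h => (hP t v w h).1) (fun t v w h => (hQ t v w h).1)
        (fun w => by rw [Finset.mem_coe]; exact hS w)
      exact ⟨f, fun w => by rw [h1, Finset.mem_coe], h2⟩
    · intro F V τ _ _ _ _ _ e B φ f T w hN hT hw hB he hf
      obtain ⟨T', h1, h2, h3⟩ := exists_tree hN T hT w hw hB he
      exact ⟨T', h1, h2, fun D hD => ⟨F, inferInstance, f, hf, h3 D hD⟩⟩
  · intro d hd
    obtain ⟨C, hC0, hC⟩ := Helper1.LR.sharp_all (max d 0) (le_max_right _ _)
      (max_lt hd (by norm_num))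
    refine ⟨C, fun n M hn h1 h2 => ?_⟩
    obtain ⟨A, f, T, g1, g2, g3, g4, g5, g6, g7⟩ := hC n M hn h1 h2
    classical
    refine ⟨⌊Real.exp (C * (n / M + Real.log n ^ 2) * Real.log n ^ 2)⌋₊,
      Finset.univ.filter fun v => f v ≠ 0, ⟨T, g1, g2, fun D hD => ⟨ZMod 2, inferInstance, f,
        fun w => by simp, Nat.le_floor (g3 D hD)⟩⟩, Nat.floor_le (Real.exp_pos _).le, ?_, ?_⟩
    · have e : size f = (Finset.univ.filter fun v => f v ≠ 0).card := by
        unfold size
        exact congrArg Finset.card (Finset.ext fun v => by simp)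
      rw [← e]
      refine le_trans ?_ g6
      apply Real.rpow_le_rpow_of_exponent_le (by norm_num)
      exact mul_le_mul_of_nonneg_right (le_max_left _ _) (Nat.cast_nonneg _)
    · intro m
      have hA : {a | ∃ v ∈ (Finset.univ.filter fun v : Fin n → Fin 2 => f v ≠ 0), value v = a}
          = A := by
        ext a
        simp only [Set.mem_ofPred_eq, Finset.mem_filter, Finset.mem_univ, true_and]
        constructor
        · rintro ⟨v, hv, rfl⟩
          exact (g4 v).1 hv
        · intro ha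
          obtain ⟨v, hv⟩ := Helper1.LR.exists_value (g5 a ha)
          exact ⟨v, (g4 v).2 (by rw [show value v = a from hv]; exact ha), hv⟩
      rw [hA]
      exact g7 m

end Pool.Agent.Helper84.TN.LowRankV3
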