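import Mathlib
import Pool.Agent.Helper84.TN.Supp
import Pool.Agent.Helper84.MP.RowCol
import Pool.Agent.Helper12.MP.Reg
import Pool.Agent.Helper29.LR.RateSupp
import Pool.Agent.Helper1.LR.Law

/-!
MP_12a1af_nt (Erdős–Turán): a sequence which vanishes outside a set with small representation
function and has many nonzero values has large rank, with respect to the digits.
-/

namespace Pool.Agent.Helper84.TN.LowRankV5

open Pool.Agent.Helper84.TN
open Pool.Agent.Helper82.CF (rep)
open Pool.Agent.Helper12.MP (IsRegular)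

/-- For some binary tree whose leaves are the positions, each once, and for the leaf set `D` of each
of its subtrees, some matrix over some field (rows: the letters in `D`; columns: the other letters)
has rank at most `s` and is not zero exactly at the words in `S`. Matrix and field may depend on the
subtree. -/
def TreeRank {ι β : Type*} [DecidableEq ι] [Fintype ι] (S : Finset (ι → β)) (s : ℕ) : Prop :=
  ∃ T : Tree ι, T.Proper ∧ T.set = Finset.univ ∧ ∀ D ∈ T.blocks, SuppRank S D s

/-- `rep A m` is the number of ordered pairs `(a, a') ∈ A × A` with `a + a' = m`; `value v` is the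
number with the base `b` digits `v`; `rk f D` is the rank of the matrix `f (u, w)`, `u` the letters
in `D` and `w` the others; `size f` is the number of words where `f` is not zero; `Nat.log 2` is the
integer part of the logarithm.

(1) Let `f` be a `b`-regular sequence with values in a field which vanishes outside `A` and has at
least `x ^ δ` nonzero values at the integers below `x`, for a `δ > 0` and arbitrarily large `x`. Then
for some `c > 0` there are arbitrarily large `m` with `r_A(m) ≥ m ^ c`.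
(2) Let `f` be a function of the numbers below `b ^ n` with values in a field, of rank at most `s` at
all initial segments of the digits, with `N > 0` nonzero values, all at elements of `A` up to `x`.
Then `(log N)² ≤ 70 (s + log b) log (b ^ n) log r_A(m)` for some `m ≤ 2 x`.
(3) Let `S` be a nonempty set of words of `n` digits, of tree rank at most `s`, all elements of `A`
up to `x`. Then `log |S| ≤ 3 r log (n (b + 1) s)` for `r = r_A(m)`, some `m ≤ 2 x`, and
`|S| ≤ (n (b + 1)) ^ k * s ^ (3 (2 ^ k - 1))` if `r_A(m) < 2 ^ (k + 1)` for all `m ≤ 2 x`.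
(4) For `d < 1 / 2` there is `C` such that for all `n ≥ C` and `2 ≤ M ≤ n` some set of at least
`2 ^ (d n)` numbers below `2 ^ n` of tree rank at most `exp (C ((n / M) log M + log³ n))` has
`r(m) ≤ M` for all `m`.
(5) If only `N > 0` of the words in `S` are elements of `A` up to `x`, then
`log |S| ≤ 10 r (2 + log₂ r) log (32 n b s |S| / N)` for such an `r`. If the words in `S` are pairs
`(c, a)` of words and for `N > 0` numbers `c` some `(c, a)` in `S` has `a` and `c - a` in `A`, up to
`x`, then `log |S| ≤ 20 r² (3 + 2 log₂ r) log (64 n b s |S| / N)` for such an `r`. -/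
theorem result :
    (∀ (K : Type) [Field K] (A : Set ℕ) (b s : ℕ) (f : ℕ → K) (δ : ℝ), 2 ≤ b →
      IsRegular b s f → (∀ c, f c ≠ 0 → c ∈ A) → 0 < δ →
      (∀ X : ℕ, ∃ x ≥ X, (x : ℝ) ^ δ ≤ ({c | c < x ∧ f c ≠ 0} : Set ℕ).ncard) →
      ∃ c : ℝ, 0 < c ∧ ∀ X : ℕ, ∃ m ≥ X, (m : ℝ) ^ c ≤ rep A m) ∧
    (∀ (K : Type) [Field K] (A : Set ℕ) (n b s x : ℕ) (f : (Fin n → Fin b) → K), 2 ≤ b →
      (∀ k : ℕ, rk f (Finset.univ.filter fun i : Fin n => (i : ℕ) < k) ≤ s) → (∃ v, f v ≠ 0) →
      (∀ v, f v ≠ 0 → value v ∈ A ∧ value v ≤ x) →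
      ∃ m ≤ 2 * x, Real.log (size f) ^ 2 ≤
        70 * (s + Real.log b) * (n * Real.log b) * Real.log (rep A m)) ∧
    (∀ (A : Set ℕ) (n b x s : ℕ) (S : Finset (Fin n → Fin b)), S.Nonempty → TreeRank S s →
      (∀ v ∈ S, value v ∈ A ∧ value v ≤ x) →
      (∃ m ≤ 2 * x, Real.log S.card ≤ 3 * rep A m * Real.log (n * (b + 1) * s)) ∧
      ∀ k : ℕ, (∀ m ≤ 2 * x, rep A m < 2 ^ (k + 1)) →
        S.card ≤ (n * (b + 1)) ^ k * s ^ (3 * (2 ^ k - 1))) ∧
    (∀ d : ℝ, d < 1 / 2 → ∃ C : ℝ, ∀ n M : ℕ, C ≤ n → 2 ≤ M → M ≤ n →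
      ∃ (s : ℕ) (S : Finset (Fin n → Fin 2)), TreeRank S s ∧
        s ≤ Real.exp (C * (n / M * Real.log M + Real.log n ^ 3)) ∧
        (2 : ℝ) ^ (d * n) ≤ S.card ∧ ∀ m, rep {a | ∃ v ∈ S, value v = a} m ≤ M) ∧
    ∀ (A : Set ℕ) (n b x s N : ℕ), 0 < N →
      (∀ S : Finset (Fin n → Fin b), TreeRank S s →
        N ≤ {a : ℕ | a ∈ A ∧ a ≤ x ∧ ∃ v ∈ S, value v = a}.ncard →
        ∃ m ≤ 2 * x, Real.log S.card ≤ 10 * (Nat.log 2 (rep A m) + 2) * rep A m *
          Real.log (32 * n * b * s * S.card / N)) ∧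
      ∀ S : Finset (Fin n ⊕ Fin n → Fin b), TreeRank S s →
        N ≤ {c : ℕ | ∃ v ∈ S, ∃ a : ℕ, value (v ∘ Sum.inl) = c ∧ value (v ∘ Sum.inr) = a ∧
          a ∈ A ∧ a ≤ x ∧ ∃ a' ∈ A, a' ≤ x ∧ a + a' = c}.ncard →
        ∃ m ≤ 2 * x, Real.log S.card ≤ 20 * (2 * Nat.log 2 (rep A m) + 3) * (rep A m : ℝ) ^ 2 *
          Real.log (64 * n * b * s * S.card / N) := by
  have pos : ∀ {ι : Type} {b s : ℕ} [DecidableEq ι] [Fintype ι] {S : Finset (ι → Fin b)}
      {T : Tree ι}, (∀ D ∈ T.blocks, SuppRank S D s) → S.Nonempty → 1 ≤ s :=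
    fun hr hne => (hr _ (Tree.set_mem_blocks _)).pos hne
  refine ⟨?_, ?_, ?_, ?_, ?_⟩
  · intro K _ A b s f δ hb hf hA hδ hbig
    exact Helper12.MP.regular_cor (fun A n b s x hb f hs hne hA => MP.mp_bound hb f hs hne hA)
      hb f hf hA hδ hbig
  · intro K _ A n b s x f hb hs hne hA
    exact MP.mp_bound hb f (fun k => by rw [MP.crk_eq_rk]; exact hs k) hne hA
  · rintro A n b x s S hne ⟨T, hT, huniv, hr⟩ hA
    obtain ⟨m, hm, h⟩ := supp_int_rate T hT huniv S hne hr hA
    refine ⟨⟨m, hm, ?_⟩, fun k hk => supp_int_bound T hT huniv S (pos hr hne) hr hA hk⟩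
    have hn : 1 ≤ n := by
      have h1 := Tree.card_set hT
      rw [huniv, Finset.card_univ, Fintype.card_fin] at h1
      rw [h1]
      exact T.one_le_leaves
    have hb : 1 ≤ b := by
      obtain ⟨w, -⟩ := hne
      have := (w ⟨0, hn⟩).pos
      omega
    have hQ : 2 ≤ n * (b + 1) * s := by
      calc 2 = 1 * 2 * 1 := by norm_num
        _ ≤ n * (b + 1) * s := Nat.mul_le_mul (Nat.mul_le_mul hn (by omega)) (pos hr hne)
    have hQ' : (1 : ℝ) < n * (b + 1) * s := by
      have : (2 : ℝ) ≤ n * (b + 1) * s := by exact_mod_cast hQ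
      linarith
    have hlog : 0 < 3 * Real.log (n * (b + 1) * s) := by
      have := Real.log_pos hQ'
      linarith
    rw [div_le_iff₀ hlog] at h
    calc Real.log S.card ≤ rep A m * (3 * Real.log (n * (b + 1) * s)) := h
      _ = 3 * rep A m * Real.log (n * (b + 1) * s) := by ring
  · intro d hd
    obtain ⟨C, -, hC⟩ := Helper1.LR.law2 d hd
    refine ⟨C, fun n M hn h1 h2 => ?_⟩
    obtain ⟨s, S, T, g1, g2, g3, g4, g5, g6⟩ := hC n M hn h1 h2
    exact ⟨s, S, ⟨T, g1, g2, g3⟩, g4, g5, g6⟩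
  · intro A n b x s N hN0
    constructor
    · rintro S ⟨T, hT, huniv, hr⟩ hN
      have hne : S.Nonempty := by
        by_contra h0
        rw [Finset.not_nonempty_iff_eq_empty] at h0
        subst h0
        have h1 : {a : ℕ | a ∈ A ∧ a ≤ x ∧ ∃ v ∈ (∅ : Finset (Fin n → Fin b)), value v = a} = ∅ := by
          ext a
          simp
        rw [h1, Set.ncard_empty] at hN
        omega
      exact Helper29.LR.supp_words_rate T hT huniv S (pos hr hne) hr hN0 hN
    · rintro S ⟨T, hT, huniv, hr⟩ hN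
      have hne : S.Nonempty := by
        by_contra h0
        rw [Finset.not_nonempty_iff_eq_empty] at h0
        subst h0
        have h1 : {c : ℕ | ∃ v ∈ (∅ : Finset (Fin n ⊕ Fin n → Fin b)), ∃ a : ℕ,
            value (v ∘ Sum.inl) = c ∧ value (v ∘ Sum.inr) = a ∧
            a ∈ A ∧ a ≤ x ∧ ∃ a' ∈ A, a' ≤ x ∧ a + a' = c} = ∅ := by
          ext a
          simp
        rw [h1, Set.ncard_empty] at hN
        omega
      exact Helper29.LR.supp_choice_rate T hT huniv S (pos hr hne) hr hN0 hN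

end Pool.Agent.Helper84.TN.LowRankV5
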