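import Pool.Agent.Helper84.TN.Tree

/-!
# Supports of functions of low tree rank
-/

namespace Pool.Agent.Helper84.TN

open Pool.Agent.Helper82.CF

open scoped Pointwise

section Box

variable {ι β : Type*} [DecidableEq ι]

/-- `S` contains `2 ^ k` words with two choices on each of `k` sets of positions -/
def Box (z : ι → β) : ℕ → Set (ι → β) → Prop
  | 0, S => S.Nonempty
  | k + 1, S => ∃ (D : Finset ι) (v v' : ι → β), (∃ i ∈ D, v i ≠ v' i) ∧
      Box z k {w | (∀ i ∈ D, w i = z i) ∧ D.piecewise v w ∈ S ∧ D.piecewise v' w ∈ S}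

theorem val_piecewise {G : Type*} [AddCommGroup G] [Fintype ι] (e : ι → β → G) (z : ι → β)
    (D : Finset ι) (u w : ι → β) (hw : ∀ i ∈ D, w i = z i) :
    ∑ i, e i (D.piecewise u w i) = ∑ i, e i (w i) + ∑ i ∈ D, (e i (u i) - e i (z i)) := by
  have h1 : ∀ i, e i (D.piecewise u w i) =
      e i (w i) + if i ∈ D then (e i (u i) - e i (z i)) else 0 := by
    intro i
    by_cases hi : i ∈ D
    · rw [Finset.piecewise_eq_of_mem _ _ _ hi, if_pos hi, hw i hi]
      abel
    · rw [Finset.piecewise_eq_of_notMem _ _ _ hi, if_neg hi, add_zero]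
  rw [Finset.sum_congr rfl fun i _ => h1 i, Finset.sum_add_distrib, Finset.sum_ite_mem,
    Finset.univ_inter]

theorem cube_of_box {G : Type*} [AddCommGroup G] [DecidableEq G] [Fintype ι] (e : ι → β → G)
    (hinj : Function.Injective fun w : ι → β => ∑ i, e i (w i)) (z : ι → β) :
    ∀ (k : ℕ) (S : Set (ι → β)), Box z k S → ∃ (c : G) (l : List G), l.length = k ∧
      (cube l).card = 2 ^ k ∧ ∀ x ∈ {c} + cube l, ∃ w ∈ S, ∑ i, e i (w i) = x := by
  intro k
  induction k with
  | zero =>
    rintro S ⟨w, hw⟩
    refine ⟨∑ i, e i (w i), [], rfl, by simp [cube_nil], ?_⟩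
    intro x hx
    rw [cube_nil, Finset.singleton_add_singleton, add_zero, Finset.mem_singleton] at hx
    exact ⟨w, hw, hx.symm⟩
  | succ k ih =>
    rintro S ⟨D, v, v', ⟨i0, hi0, hne⟩, hb⟩
    obtain ⟨c, l, hl, hcard, hsub⟩ := ih _ hb
    set δ : (ι → β) → G := fun u => ∑ i ∈ D, (e i (u i) - e i (z i)) with hδ
    have hmem : ∀ y ∈ cube l, ∃ w : ι → β, (∀ i ∈ D, w i = z i) ∧ D.piecewise v w ∈ S ∧
        D.piecewise v' w ∈ S ∧ ∑ i, e i (w i) = c + y := by
      intro y hy
      obtain ⟨w, ⟨h1, h2, h3⟩, h4⟩ := hsub (c + y)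
        (Finset.add_mem_add (Finset.mem_singleton_self _) hy)
      exact ⟨w, h1, h2, h3, h4⟩
    refine ⟨c + δ v, (δ v' - δ v) :: l, by rw [List.length_cons, hl], ?_, ?_⟩
    · have e1 : cube ((δ v' - δ v) :: l) = cube l ∪ ({δ v' - δ v} + cube l) := by
        rw [cube_cons, Finset.insert_eq, Finset.union_add, Finset.singleton_zero, zero_add]
      rw [e1, Finset.card_union_of_disjoint, card_singleton_add, hcard, pow_succ]
      · ring
      · rw [Finset.disjoint_left]
        intro y hy hy'
        rw [Finset.mem_add] at hy'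
        obtain ⟨h, hh, y', hy', e2⟩ := hy'
        rw [Finset.mem_singleton] at hh
        subst hh
        obtain ⟨w, h1, -, -, h4⟩ := hmem y hy
        obtain ⟨w', h1', -, -, h4'⟩ := hmem y' hy'
        have h5 : ∑ i, e i (D.piecewise v w i) = ∑ i, e i (D.piecewise v' w' i) := by
          rw [val_piecewise e z D v w h1, val_piecewise e z D v' w' h1', h4, h4', ← e2]
          simp only [hδ]
          abel
        have h6 := hinj h5
        have h7 := congrFun h6 i0
        rw [Finset.piecewise_eq_of_mem _ _ _ hi0, Finset.piecewise_eq_of_mem _ _ _ hi0] at h7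
        exact hne h7
    · intro x hx
      rw [Finset.mem_add] at hx
      obtain ⟨c', hc', y, hy, rfl⟩ := hx
      rw [Finset.mem_singleton] at hc'
      subst hc'
      rw [cube_cons, Finset.mem_add] at hy
      obtain ⟨a, ha, y, hy, rfl⟩ := hy
      obtain ⟨w, h1, h2, h3, h4⟩ := hmem y hy
      simp only [Finset.mem_insert, Finset.mem_singleton] at ha
      rcases ha with rfl | rfl
      · refine ⟨_, h2, ?_⟩
        rw [val_piecewise e z D v w h1, h4]
        simp only [hδ]
        abel
      · refine ⟨_, h3, ?_⟩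
        rw [val_piecewise e z D v' w h1, h4]
        simp only [hδ]
        abel

end Box

section Count

variable {ι β : Type*} [DecidableEq ι] [Fintype β] [DecidableEq β]

/-- the elements of `S` that agree with `a` on `D` -/
def cls (S : Finset (ι → β)) (D : Finset ι) (a : ι → β) : Finset (ι → β) :=
  S.filter fun a' => ∀ i ∈ D, a' i = a i

/-- the number of leaves -/
def Tree.leaves {ι : Type*} : Tree ι → ℕ
  | .leaf _ => 1
  | .node l r => l.leaves + r.leaves

theorem Tree.one_le_leaves {ι : Type*} (T : Tree ι) : 1 ≤ T.leaves := by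
  induction T with
  | leaf i => exact le_rfl
  | node l r ihl ihr =>
    rw [Tree.leaves]
    omega

theorem Tree.card_set {ι : Type*} [DecidableEq ι] {T : Tree ι} (hT : T.Proper) : T.set.card = T.leaves := by
  induction T with
  | leaf i => rfl
  | node l r ihl ihr =>
    obtain ⟨hl, hr, hd⟩ := hT
    rw [Tree.set, Finset.card_union_of_disjoint hd, ihl hl, ihr hr, Tree.leaves]

omit [Fintype β] [DecidableEq ι] in
theorem mem_cls {S : Finset (ι → β)} {D : Finset ι} {a a' : ι → β} :
    a' ∈ cls S D a ↔ a' ∈ S ∧ ∀ i ∈ D, a' i = a i := Finset.mem_filter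

omit [Fintype β] [DecidableEq ι] in
theorem cls_congr (S : Finset (ι → β)) {D : Finset ι} {a a' : ι → β} (h : ∀ i ∈ D, a i = a' i) :
    cls S D a = cls S D a' := by
  unfold cls
  apply Finset.filter_congr
  intro x _
  constructor
  · intro hx i hi
    rw [hx i hi, h i hi]
  · intro hx i hi
    rw [hx i hi, h i hi]

theorem count (S : Finset (ι → β)) (M s : ℕ) (t : Tree ι)
    (hh : ∀ D ∈ t.blocks, ∀ V : Finset (ι → β), (∀ v ∈ V, M < (cls S D v).card) →
      (∀ v ∈ V, ∀ v' ∈ V, v ≠ v' → ∃ i ∈ D, v i ≠ v' i) → V.card ≤ s) :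
    (S.filter fun a => (cls S t.set a).card ≤ M).card + s ^ 2 * M ≤
      t.leaves * ((Fintype.card β + s ^ 2) * M) := by
  classical
  rcases S.eq_empty_or_nonempty with hSe | ⟨z, hz⟩
  · subst hSe
    have h1 : 1 ≤ t.leaves := t.one_le_leaves
    calc _ = s ^ 2 * M := by simp
      _ ≤ 1 * ((Fintype.card β + s ^ 2) * M) := by
        rw [one_mul]
        exact Nat.mul_le_mul_right _ (Nat.le_add_left _ _)
      _ ≤ _ := Nat.mul_le_mul_right _ h1
  induction t with
  | leaf i =>
    set X := S.filter fun a => (cls S (Tree.leaf i).set a).card ≤ M with hX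
    have h1 : X.card ≤ M * (X.image fun a => a i).card := by
      apply Finset.card_le_mul_card_image
      intro y hy
      obtain ⟨a, ha, rfl⟩ := Finset.mem_image.1 hy
      refine le_trans (Finset.card_le_card ?_) (Finset.mem_filter.1 ha).2
      intro x hx
      obtain ⟨hx1, hx2⟩ := Finset.mem_filter.1 hx
      refine Finset.mem_filter.2 ⟨(Finset.mem_filter.1 hx1).1, ?_⟩
      intro j hj
      rw [Tree.set, Finset.mem_singleton] at hj
      rw [hj]
      exact hx2
    have h2 : (X.image fun a => a i).card ≤ Fintype.card β := Finset.card_le_univ _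
    have h3 : X.card ≤ M * Fintype.card β := h1.trans (Nat.mul_le_mul_left _ h2)
    rw [Tree.leaves, one_mul, add_mul]
    linarith
  | node l r ihl ihr =>
    have hl := ihl fun D hD => hh D (Or.inr (Or.inl hD))
    have hr := ihr fun D hD => hh D (Or.inr (Or.inr hD))
    set Y := S.filter fun a => (cls S (l.set ∪ r.set) a).card ≤ M ∧ M < (cls S l.set a).card ∧
      M < (cls S r.set a).card with hY
    have hcov : (S.filter fun a => (cls S (Tree.node l r).set a).card ≤ M) ⊆
        ((S.filter fun a => (cls S l.set a).card ≤ M) ∪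
          (S.filter fun a => (cls S r.set a).card ≤ M)) ∪ Y := by
      intro a ha
      obtain ⟨h1, h2⟩ := Finset.mem_filter.1 ha
      rw [Finset.mem_union, Finset.mem_union, Finset.mem_filter, Finset.mem_filter,
        Finset.mem_filter]
      by_cases h3 : (cls S l.set a).card ≤ M
      · exact Or.inl (Or.inl ⟨h1, h3⟩)
      · by_cases h4 : (cls S r.set a).card ≤ M
        · exact Or.inl (Or.inr ⟨h1, h4⟩)
        · exact Or.inr ⟨h1, h2, not_le.1 h3, not_le.1 h4⟩
    have hV : ∀ D ∈ (Tree.node l r).blocks, (∀ a ∈ Y, M < (cls S D a).card) →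
        (Y.image fun a => D.piecewise a z).card ≤ s := by
      intro D hD hYD
      apply hh D hD
      · intro v hv
        obtain ⟨a, ha, rfl⟩ := Finset.mem_image.1 hv
        have : cls S D (D.piecewise a z) = cls S D a :=
          cls_congr S fun i hi => Finset.piecewise_eq_of_mem _ _ _ hi
        rw [this]
        exact hYD a ha
      · intro v hv v' hv' hvv
        obtain ⟨a, ha, rfl⟩ := Finset.mem_image.1 hv
        obtain ⟨a', ha', rfl⟩ := Finset.mem_image.1 hv'
        by_contra hno
        push Not at hno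
        apply hvv
        ext i
        by_cases hi : i ∈ D
        · exact hno i hi
        · rw [Finset.piecewise_eq_of_notMem _ _ _ hi, Finset.piecewise_eq_of_notMem _ _ _ hi]
    have hVl := hV l.set (Or.inr (Or.inl l.set_mem_blocks)) fun a ha =>
      (Finset.mem_filter.1 ha).2.2.1
    have hVr := hV r.set (Or.inr (Or.inr r.set_mem_blocks)) fun a ha =>
      (Finset.mem_filter.1 ha).2.2.2
    have hYc : Y.card ≤ M * (s * s) := by
      set g : (ι → β) → (ι → β) × (ι → β) := fun a => (l.set.piecewise a z, r.set.piecewise a z)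
        with hg
      have h1 : Y.card ≤ M * (Y.image g).card := by
        apply Finset.card_le_mul_card_image
        intro y hy
        obtain ⟨a, ha, rfl⟩ := Finset.mem_image.1 hy
        refine le_trans (Finset.card_le_card ?_) (Finset.mem_filter.1 ha).2.1
        intro x hx
        obtain ⟨hx1, hx2⟩ := Finset.mem_filter.1 hx
        refine Finset.mem_filter.2 ⟨(Finset.mem_filter.1 hx1).1, ?_⟩
        intro j hj
        have e1 := congrFun (congrArg Prod.fst hx2) j
        have e2 := congrFun (congrArg Prod.snd hx2) j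
        simp only [hg] at e1 e2
        rcases Finset.mem_union.1 hj with hj | hj
        · rwa [Finset.piecewise_eq_of_mem _ _ _ hj, Finset.piecewise_eq_of_mem _ _ _ hj] at e1
        · rwa [Finset.piecewise_eq_of_mem _ _ _ hj, Finset.piecewise_eq_of_mem _ _ _ hj] at e2
      have h2 : Y.image g ⊆ (Y.image fun a => l.set.piecewise a z) ×ˢ
          (Y.image fun a => r.set.piecewise a z) := by
        intro y hy
        obtain ⟨a, ha, rfl⟩ := Finset.mem_image.1 hy
        exact Finset.mem_product.2 ⟨Finset.mem_image_of_mem _ ha, Finset.mem_image_of_mem _ ha⟩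
      have h3 := Finset.card_le_card h2
      rw [Finset.card_product] at h3
      exact h1.trans (Nat.mul_le_mul_left _ (h3.trans (Nat.mul_le_mul hVl hVr)))
    have h5 := (Finset.card_le_card hcov).trans
      ((Finset.card_union_le _ _).trans (Nat.add_le_add_right (Finset.card_union_le _ _) _))
    rw [Tree.leaves, add_mul]
    nlinarith [hl, hr, h5, hYc]

end Count

section Induction

variable {ι β F : Type*} [DecidableEq ι] [Fintype ι] [Fintype β] [DecidableEq β] [Field F]

open Classical in
/-- the support -/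
noncomputable def supp (f : (ι → β) → F) : Finset (ι → β) := Finset.univ.filter fun w => f w ≠ 0

omit [DecidableEq β] in
theorem mem_supp {f : (ι → β) → F} {w : ι → β} : w ∈ supp f ↔ f w ≠ 0 := by
  classical
  simp [supp]

/-- the bound -/
def bd (n b k s : ℕ) : ℕ := (n * (b + 1)) ^ k * s ^ (3 * (2 ^ k - 1))

theorem bd_succ (n b k s : ℕ) : bd n b (k + 1) s = n * (b + 1) * s ^ 3 * bd n b k (s ^ 2) := by
  unfold bd
  have h1 : 3 * (2 ^ (k + 1) - 1) = 3 + 2 * (3 * (2 ^ k - 1)) := by
    have : 1 ≤ 2 ^ k := Nat.one_le_two_pow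
    rw [pow_succ]
    omega
  rw [h1, pow_succ (n * (b + 1)) k, pow_add s, ← pow_mul]
  ring

/-- at most `s` sections are large -/
theorem heavy (z : ι → β) (f : (ι → β) → F) {s P : ℕ} {D : Finset ι}
    (hr : rk f D ≤ s)
    (hP : ∀ v v' : ι → β, (∃ i ∈ D, v i ≠ v' i) → (supp (common f D z v v')).card ≤ P)
    (V : Finset (ι → β)) (hV : ∀ v ∈ V, s * P < (cls (supp f) D v).card)
    (hne : ∀ v ∈ V, ∀ v' ∈ V, v ≠ v' → ∃ i ∈ D, v i ≠ v' i) : V.card ≤ s := by
  classical
  by_contra hlt
  push Not at hlt
  obtain ⟨U, hUV, hU⟩ := Finset.exists_subset_card_eq (Nat.succ_le_of_lt hlt)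
  have h := card_le_rk f D U ?_
  · omega
  intro v hv
  set C : (ι → β) → Finset (ι → β) := fun u =>
    Finset.univ.filter fun w => (∀ i ∈ D, w i = z i) ∧ f (D.piecewise u w) ≠ 0 with hC
  have h1 : (cls (supp f) D v).card ≤ (C v).card := by
    apply Finset.card_le_card_of_injOn (fun a => D.piecewise z a)
    · intro a ha
      rw [Finset.mem_coe] at ha
      obtain ⟨ha1, ha2⟩ := mem_cls.1 ha
      rw [Finset.mem_coe, hC, Finset.mem_filter]
      refine ⟨Finset.mem_univ _, fun i hi => Finset.piecewise_eq_of_mem _ _ _ hi, ?_⟩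
      have : D.piecewise v (D.piecewise z a) = a := by
        ext i
        by_cases hi : i ∈ D
        · rw [Finset.piecewise_eq_of_mem _ _ _ hi, ha2 i hi]
        · rw [Finset.piecewise_eq_of_notMem _ _ _ hi, Finset.piecewise_eq_of_notMem _ _ _ hi]
      rw [this]
      exact mem_supp.1 ha1
    · intro a ha a' ha' haa
      rw [Finset.mem_coe] at ha ha'
      obtain ⟨-, ha2⟩ := mem_cls.1 ha
      obtain ⟨-, ha2'⟩ := mem_cls.1 ha'
      ext i
      by_cases hi : i ∈ D
      · rw [ha2 i hi, ha2' i hi]
      · have := congrFun haa i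
        simp only at this
        rwa [Finset.piecewise_eq_of_notMem _ _ _ hi, Finset.piecewise_eq_of_notMem _ _ _ hi] at this
  have h2 : ((U.erase v).biUnion fun v' => supp (common f D z v v')).card ≤ s * P := by
    refine Finset.card_biUnion_le.trans ?_
    calc ∑ v' ∈ U.erase v, (supp (common f D z v v')).card ≤ ∑ v' ∈ U.erase v, P := by
          refine Finset.sum_le_sum fun v' hv' => hP v v' ?_
          obtain ⟨hv1, hv2⟩ := Finset.mem_erase.1 hv'
          exact hne v (hUV hv) v' (hUV hv2) (fun h => hv1 h.symm)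
      _ = s * P := by
          rw [Finset.sum_const, smul_eq_mul, Finset.card_erase_of_mem hv, hU]
          rfl
  have h3 : ((U.erase v).biUnion fun v' => supp (common f D z v v')).card < (C v).card :=
    h2.trans_lt ((hV v (hUV hv)).trans_le h1)
  obtain ⟨w, hw, hw'⟩ := Finset.exists_mem_notMem_of_card_lt_card h3
  rw [hC, Finset.mem_filter] at hw
  refine ⟨w, hw.2.2, fun v' hv' hvv => ?_⟩
  by_contra hno
  apply hw'
  rw [Finset.mem_biUnion]
  refine ⟨v', Finset.mem_erase.2 ⟨hvv, hv'⟩, mem_supp.2 ?_⟩
  change f (D.piecewise v w) * f (D.piecewise v' w) * ind F D z w ≠ 0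
  rw [ind_pos hw.2.1, mul_one]
  exact mul_ne_zero hw.2.2 hno

theorem card_supp_le (z : ι → β) (T : Tree ι) (hT : T.Proper) (huniv : T.set = Finset.univ) :
    ∀ (k s : ℕ) (f : (ι → β) → F), 1 ≤ s → (∀ D ∈ T.blocks, rk f D ≤ s) →
      ¬ Box z (k + 1) {w | f w ≠ 0} →
      (supp f).card ≤ bd (Fintype.card ι) (Fintype.card β) k s := by
  classical
  intro k
  induction k with
  | zero =>
    intro s f hs hr hno
    have h1 : bd (Fintype.card ι) (Fintype.card β) 0 s = 1 := by simp [bd]
    rw [h1, Finset.card_le_one]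
    intro a ha a' ha'
    by_contra hne
    apply hno
    refine ⟨Finset.univ, a, a', ?_, z, ?_, ?_, ?_⟩
    · by_contra h
      push Not at h
      exact hne (funext fun i => h i (Finset.mem_univ _))
    · intro i _; rfl
    · rw [Finset.piecewise_univ]
      exact mem_supp.1 ha
    · rw [Finset.piecewise_univ]
      exact mem_supp.1 ha'
  | succ k ih =>
    intro s f hs hr hno
    set P := bd (Fintype.card ι) (Fintype.card β) k (s ^ 2) with hP
    have hn : 1 ≤ T.leaves := T.one_le_leaves
    have hcard : T.leaves = Fintype.card ι := by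
      rw [← Tree.card_set hT, huniv, Finset.card_univ]
    have hP1 : 1 ≤ P := by
      rw [hP, bd]
      have h1 : 1 ≤ Fintype.card ι * (Fintype.card β + 1) :=
        Nat.mul_pos (by omega) (Nat.succ_pos _)
      exact Nat.mul_pos (pow_pos h1 _) (pow_pos (pow_pos hs _) _)
    have hcom : ∀ D ∈ T.blocks, ∀ v v' : ι → β, (∃ i ∈ D, v i ≠ v' i) →
        (supp (common f D z v v')).card ≤ P := by
      intro D hD v v' hvv
      apply ih (s ^ 2) (common f D z v v') (Nat.one_le_pow _ _ hs)
      · intro E hE
        exact rk_common f hs (hr E hE) (Tree.laminar hT hD hE) z v v'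
      · intro hb
        apply hno
        refine ⟨D, v, v', hvv, ?_⟩
        convert hb using 1
        ext w
        simp only [Set.mem_ofPred_eq]
        change _ ↔ f (D.piecewise v w) * f (D.piecewise v' w) * ind F D z w ≠ 0
        by_cases hw : ∀ i ∈ D, w i = z i
        · rw [ind_pos hw, mul_one, mul_ne_zero_iff]
          exact ⟨fun h => h.2, fun h => ⟨hw, h⟩⟩
        · rw [ind_neg hw, mul_zero]
          exact ⟨fun h => absurd h.1 hw, fun h => absurd rfl h⟩
    have h1 := count (supp f) (s * P) s T fun D hD V hV hne =>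
      heavy z f (hr D hD) (hcom D hD) V hV hne
    have h2 : (supp f).filter (fun a => (cls (supp f) T.set a).card ≤ s * P) = supp f := by
      rw [Finset.filter_eq_self]
      intro a ha
      have h3 : cls (supp f) T.set a ⊆ {a} := by
        intro x hx
        rw [Finset.mem_singleton]
        obtain ⟨-, hx2⟩ := mem_cls.1 hx
        ext i
        exact hx2 i (by rw [huniv]; exact Finset.mem_univ _)
      calc (cls (supp f) T.set a).card ≤ ({a} : Finset (ι → β)).card := Finset.card_le_card h3
        _ = 1 * 1 := by simp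
        _ ≤ s * P := Nat.mul_le_mul hs hP1
    rw [h2] at h1
    rw [bd_succ, ← hP]
    calc (supp f).card ≤ T.leaves * ((Fintype.card β + s ^ 2) * (s * P)) :=
          (Nat.le_add_right _ _).trans h1
      _ ≤ T.leaves * (((Fintype.card β + 1) * s ^ 2) * (s * P)) := by
          refine Nat.mul_le_mul_left _ (Nat.mul_le_mul_right _ ?_)
          have : 1 ≤ s ^ 2 := Nat.one_le_pow _ _ hs
          nlinarith
      _ = Fintype.card ι * (Fintype.card β + 1) * s ^ 3 * P := by
          rw [hcard]
          ring

/-- **The theorem.**  If a function with values in a field has support `S` and unfolding ranks at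
most `s` along a binary tree of the positions, and `S` has no proper Hilbert cube of dimension
`k + 1`, then `S` has at most `(n (b + 1)) ^ k * s ^ (3 (2 ^ k - 1))` elements. -/
theorem low_rank {G : Type*} [AddCommGroup G] [DecidableEq G] (e : ι → β → G)
    (hinj : Function.Injective fun w : ι → β => ∑ i, e i (w i))
    (T : Tree ι) (hT : T.Proper) (huniv : T.set = Finset.univ)
    (f : (ι → β) → F) (S : Finset G)
    (hS : ∀ w, f w ≠ 0 ↔ ∑ i, e i (w i) ∈ S)
    (hS' : ∀ g ∈ S, ∃ w : ι → β, ∑ i, e i (w i) = g)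
    (s k : ℕ) (hs : 1 ≤ s) (hr : ∀ D ∈ T.blocks, rk f D ≤ s)
    (hno : ∀ (c : G) (l : List G), l.length = k + 1 → (cube l).card = 2 ^ l.length →
      ¬ ({c} + cube l ⊆ S)) :
    S.card ≤ (Fintype.card ι * (Fintype.card β + 1)) ^ k * s ^ (3 * (2 ^ k - 1)) := by
  classical
  have h0 : S.card = (supp f).card := by
    have : S = (supp f).image fun w => ∑ i, e i (w i) := by
      ext g
      rw [Finset.mem_image]
      constructor
      · intro hg
        obtain ⟨w, rfl⟩ := hS' g hg
        exact ⟨w, mem_supp.2 ((hS w).2 hg), rfl⟩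
      · rintro ⟨w, hw, rfl⟩
        exact (hS w).1 (mem_supp.1 hw)
    rw [this, Finset.card_image_of_injective _ hinj]
  rw [h0]
  rcases (supp f).eq_empty_or_nonempty with he | ⟨z, hz⟩
  · rw [he]
    simp
  refine card_supp_le z T hT huniv k s f hs hr ?_
  intro hb
  obtain ⟨c, l, hl, hcard, hsub⟩ := cube_of_box e hinj z (k + 1) _ hb
  refine hno c l hl (by rw [hl]; exact hcard) ?_
  intro x hx
  obtain ⟨w, hw, rfl⟩ := hsub x hx
  exact (hS w).1 hw

end Induction

end Pool.Agent.Helper84.TN
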