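import Mathlib

/-!
# Unfolding ranks of functions on words

`rk f D` is the rank of the matrix `(f (v, w))`, `v` the letters in `D`, `w` the letters outside
`D`.
-/

namespace Pool.Agent.Helper84.TN

variable {ι β F : Type*} [DecidableEq ι] [Field F]

/-- the row of `f` at `v` -/
def row (f : (ι → β) → F) (D : Finset ι) (v : ι → β) : (ι → β) → F :=
  fun w => f (D.piecewise v w)

/-- the rank over `F` of the matrix `(f (v, w))`, where `v` runs through the letters in `D` and `w`
through the letters outside `D` -/
noncomputable def rk (f : (ι → β) → F) (D : Finset ι) : ℕ :=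
  Module.finrank F (Submodule.span F (Set.range (row f D)))

theorem finrank_mul_le {A : Type*} [CommRing A] [Algebra F A] [FiniteDimensional F A]
    (M N : Submodule F A) :
    Module.finrank F ↥(M * N) ≤ Module.finrank F M * Module.finrank F N := by
  classical
  have key : ∀ P : Submodule F A, ∃ u : Fin (Module.finrank F P) → A,
      Submodule.span F (Set.range u) = P := by
    intro P
    refine ⟨fun i => (Module.finBasis F P i : A), ?_⟩
    have h := (Module.finBasis F P).span_eq
    have h1 : Submodule.map P.subtype (Submodule.span F (Set.range (Module.finBasis F P))) = P := by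
      rw [h, Submodule.map_top, Submodule.range_subtype]
    rw [Submodule.map_span, ← Set.range_comp] at h1
    exact h1
  obtain ⟨u, hu⟩ := key M
  obtain ⟨v, hv⟩ := key N
  have h1 : M * N = Submodule.span F
      (Set.range fun p : Fin (Module.finrank F M) × Fin (Module.finrank F N) => u p.1 * v p.2) := by
    conv_lhs => rw [← hu, ← hv]
    rw [Submodule.span_mul_span]
    congr 1
    ext x
    simp only [Set.mem_mul, Set.mem_range, Prod.exists, exists_exists_eq_and]
  rw [h1]
  refine (finrank_range_le_card _).trans ?_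
  rw [Fintype.card_prod, Fintype.card_fin, Fintype.card_fin]

variable [Finite ι] [Finite β]

omit [Finite ι] [Finite β] in
theorem rk_mono_aux {f g : (ι → β) → F} {D E : Finset ι} [FiniteDimensional F ((ι → β) → F)]
    (h : Submodule.span F (Set.range (row f D)) ≤ Submodule.span F (Set.range (row g E))) :
    rk f D ≤ rk g E := Submodule.finrank_mono h

theorem rk_mul (f g : (ι → β) → F) (D : Finset ι) : rk (f * g) D ≤ rk f D * rk g D := by
  refine le_trans (Submodule.finrank_mono ?_) (finrank_mul_le _ _)
  rw [Submodule.span_le]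
  rintro _ ⟨v, rfl⟩
  have : row (f * g) D v = row f D v * row g D v := rfl
  rw [this]
  exact Submodule.mul_mem_mul (Submodule.subset_span ⟨v, rfl⟩) (Submodule.subset_span ⟨v, rfl⟩)

/-- if all rows are multiples of one function, the rank is at most one -/
theorem rk_le_one {f : (ι → β) → F} {D : Finset ι} (g : (ι → β) → F)
    (h : ∀ v, ∃ c : F, row f D v = c • g) : rk f D ≤ 1 := by
  have h1 : Submodule.span F (Set.range (row f D)) ≤ Submodule.span F {g} := by
    rw [Submodule.span_le]
    rintro _ ⟨v, rfl⟩
    obtain ⟨c, hc⟩ := h v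
    rw [hc]
    exact Submodule.smul_mem _ _ (Submodule.mem_span_singleton_self g)
  refine (Submodule.finrank_mono h1).trans ?_
  have h2 := finrank_span_finset_le_card (R := F) ({g} : Finset ((ι → β) → F))
  rwa [Finset.coe_singleton, Finset.card_singleton] at h2

/-- the section of `f` at `v` -/
def sec (f : (ι → β) → F) (D : Finset ι) (v : ι → β) : (ι → β) → F :=
  fun w => f (D.piecewise v w)

theorem rk_sec_disj (f : (ι → β) → F) {D E : Finset ι} (h : Disjoint D E) (v : ι → β) :
    rk (sec f D v) E ≤ rk f E := by
  classical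
  have h1 : Submodule.span F (Set.range (row (sec f D v) E)) ≤
      (Submodule.span F (Set.range (row f E))).map
        (LinearMap.funLeft F F (fun w : ι → β => D.piecewise v w)) := by
    rw [Submodule.span_le]
    rintro _ ⟨e, rfl⟩
    refine ⟨row f E e, Submodule.subset_span ⟨e, rfl⟩, ?_⟩
    ext w
    simp only [LinearMap.funLeft_apply, row, sec]
    congr 1
    ext i
    simp only [Finset.piecewise]
    by_cases hE : i ∈ E
    · have hD : i ∉ D := fun hD => (Finset.disjoint_left.1 h hD) hE
      simp [hE, hD]
    · simp [hE]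
  exact (Submodule.finrank_mono h1).trans (Submodule.finrank_map_le _ _)

theorem rk_sec_sub (f : (ι → β) → F) {D E : Finset ι} (h : D ⊆ E) (v : ι → β) :
    rk (sec f D v) E ≤ rk f E := by
  classical
  refine Submodule.finrank_mono (Submodule.span_mono ?_)
  rintro _ ⟨e, rfl⟩
  refine ⟨D.piecewise v e, ?_⟩
  ext w
  simp only [row, sec]
  congr 1
  ext i
  simp only [Finset.piecewise]
  by_cases hD : i ∈ D
  · simp [hD, h hD]
  · simp [hD]

theorem rk_sec_sup (f : (ι → β) → F) {D E : Finset ι} (h : E ⊆ D) (v : ι → β) :
    rk (sec f D v) E ≤ 1 := by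
  classical
  refine rk_le_one (sec f D v) fun e => ⟨1, ?_⟩
  rw [one_smul]
  ext w
  simp only [row, sec]
  congr 1
  ext i
  simp only [Finset.piecewise]
  by_cases hD : i ∈ D
  · simp [hD]
  · have : i ∉ E := fun hE => hD (h hE)
    simp [hD, this]

/-- the indicator function of `w = z` on `D` -/
noncomputable def ind (F : Type*) [Field F] (D : Finset ι) (z : ι → β) : (ι → β) → F := by
  classical
  exact fun w => if ∀ i ∈ D, w i = z i then 1 else 0

omit [DecidableEq ι] [Finite ι] [Finite β] in
theorem ind_pos {D : Finset ι} {z w : ι → β} (h : ∀ i ∈ D, w i = z i) : ind F D z w = 1 := by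
  unfold ind
  exact if_pos h

omit [DecidableEq ι] [Finite ι] [Finite β] in
theorem ind_neg {D : Finset ι} {z w : ι → β} (h : ¬ ∀ i ∈ D, w i = z i) : ind F D z w = 0 := by
  unfold ind
  exact if_neg h

theorem rk_ind (D E : Finset ι) (z : ι → β) : rk (ind F D z) E ≤ 1 := by
  classical
  refine rk_le_one (ind F (D \ E) z) fun e => ⟨ind F (D ∩ E) z e, ?_⟩
  ext w
  rw [Pi.smul_apply, smul_eq_mul]
  change ind F D z (E.piecewise e w) = _
  by_cases h1 : ∀ i ∈ D ∩ E, e i = z i
  · by_cases h2 : ∀ i ∈ D \ E, w i = z i
    · rw [ind_pos h1, ind_pos h2, mul_one]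
      apply ind_pos
      intro i hi
      by_cases hE : i ∈ E
      · rw [Finset.piecewise_eq_of_mem _ _ _ hE]
        exact h1 i (Finset.mem_inter.2 ⟨hi, hE⟩)
      · rw [Finset.piecewise_eq_of_notMem _ _ _ hE]
        exact h2 i (Finset.mem_sdiff.2 ⟨hi, hE⟩)
    · rw [ind_neg h2, mul_zero]
      apply ind_neg
      intro h3
      apply h2
      intro i hi
      have := h3 i (Finset.mem_sdiff.1 hi).1
      rwa [Finset.piecewise_eq_of_notMem _ _ _ (Finset.mem_sdiff.1 hi).2] at this
  · rw [ind_neg h1, zero_mul]
    apply ind_neg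
    intro h3
    apply h1
    intro i hi
    have := h3 i (Finset.mem_inter.1 hi).1
    rwa [Finset.piecewise_eq_of_mem _ _ _ (Finset.mem_inter.1 hi).2] at this

/-- the function whose support is the common part of two sections -/
noncomputable def common (f : (ι → β) → F) (D : Finset ι) (z v v' : ι → β) : (ι → β) → F :=
  sec f D v * sec f D v' * ind F D z

theorem rk_common (f : (ι → β) → F) {D E : Finset ι} {s : ℕ} (hs : 1 ≤ s) (hE : rk f E ≤ s)
    (h : D ⊆ E ∨ E ⊆ D ∨ Disjoint D E) (z v v' : ι → β) :
    rk (common f D z v v') E ≤ s ^ 2 := by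
  have key : ∀ u, rk (sec f D u) E ≤ s := by
    intro u
    rcases h with h | h | h
    · exact (rk_sec_sub f h u).trans hE
    · exact (rk_sec_sup f h u).trans hs
    · exact (rk_sec_disj f h u).trans hE
  calc rk (common f D z v v') E ≤ rk (sec f D v * sec f D v') E * rk (ind F D z) E := rk_mul _ _ _
    _ ≤ (rk (sec f D v) E * rk (sec f D v') E) * 1 :=
        Nat.mul_le_mul (rk_mul _ _ _) (rk_ind _ _ _)
    _ ≤ (s * s) * 1 := Nat.mul_le_mul_right _ (Nat.mul_le_mul (key v) (key v'))
    _ = s ^ 2 := by ring

/-- rows with private columns are independent -/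
theorem card_le_rk (f : (ι → β) → F) (D : Finset ι) (V : Finset (ι → β))
    (h : ∀ v ∈ V, ∃ w, f (D.piecewise v w) ≠ 0 ∧ ∀ v' ∈ V, v' ≠ v → f (D.piecewise v' w) = 0) :
    V.card ≤ rk f D := by
  classical
  choose! w hw1 hw2 using h
  have hli : LinearIndependent F (fun v : V => row f D v) := by
    rw [Fintype.linearIndependent_iff]
    intro c hc u
    have h1 := congrFun hc (w u)
    rw [Finset.sum_apply, Finset.sum_eq_single u] at h1
    · simp only [Pi.smul_apply, smul_eq_mul, Pi.zero_apply, row] at h1
      exact (mul_eq_zero.1 h1).resolve_right (hw1 u u.2)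
    · intro v _ hvu
      simp only [Pi.smul_apply, smul_eq_mul, row]
      rw [hw2 u u.2 v v.2 (fun e => hvu (Subtype.ext e)), mul_zero]
    · intro h
      exact absurd (Finset.mem_univ _) h
  have hmem : ∀ v : V, row f D v ∈ Submodule.span F (Set.range (row f D)) :=
    fun v => Submodule.subset_span ⟨v, rfl⟩
  have hli' : LinearIndependent F
      (fun v : V => (⟨row f D v, hmem v⟩ : Submodule.span F (Set.range (row f D)))) := by
    apply LinearIndependent.of_comp (Submodule.span F (Set.range (row f D))).subtype
    exact hli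
  have := hli'.fintype_card_le_finrank
  rwa [Fintype.card_coe] at this

end Pool.Agent.Helper84.TN
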