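import Pool.Agent.Helper84.TN.Tree

/-! Statement of the main theorem (with sorry), for the people who work on corollaries. -/

namespace Pool.Agent.Helper84.TN.Stmt

open Pool.Agent.Helper84.TN Pool.Agent.Helper82.CF

open scoped Pointwise

theorem low_rank {ι β F G : Type*} [DecidableEq ι] [Fintype ι] [Fintype β] [DecidableEq β]
    [Field F] [AddCommGroup G] [DecidableEq G] (e : ι → β → G)
    (hinj : Function.Injective fun w : ι → β => ∑ i, e i (w i))
    (T : Tree ι) (hT : T.Proper) (huniv : T.set = Finset.univ)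
    (f : (ι → β) → F) (S : Finset G)
    (hS : ∀ w, f w ≠ 0 ↔ ∑ i, e i (w i) ∈ S)
    (hS' : ∀ g ∈ S, ∃ w : ι → β, ∑ i, e i (w i) = g)
    (s k : ℕ) (hs : 1 ≤ s) (hr : ∀ D ∈ T.blocks, rk f D ≤ s)
    (hno : ∀ (c : G) (l : List G), l.length = k + 1 → (cube l).card = 2 ^ l.length →
      ¬ ({c} + cube l ⊆ S)) :
    S.card ≤ (Fintype.card ι * (Fintype.card β + 1)) ^ k * s ^ (3 * (2 ^ k - 1)) := by
  sorry

end Pool.Agent.Helper84.TN.Stmt
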