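import Pool.Agent.Helper84.TN.Rank
import Pool.Agent.Helper82.CF.Cir

/-!
# Binary trees of positions
-/

namespace Pool.Agent.Helper84.TN

/-- binary trees with leaves in `ι` -/
inductive Tree (ι : Type*) : Type _
  | leaf (i : ι) : Tree ι
  | node (l r : Tree ι) : Tree ι

variable {ι : Type*} [DecidableEq ι]

/-- the set of the leaves -/
def Tree.set : Tree ι → Finset ι
  | .leaf i => {i}
  | .node l r => l.set ∪ r.set

/-- no position occurs twice -/
def Tree.Proper : Tree ι → Prop
  | .leaf _ => True
  | .node l r => l.Proper ∧ r.Proper ∧ Disjoint l.set r.set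

/-- the leaf sets of all subtrees -/
def Tree.blocks : Tree ι → Set (Finset ι)
  | .leaf i => {{i}}
  | .node l r => insert (l.set ∪ r.set) (l.blocks ∪ r.blocks)

theorem Tree.set_mem_blocks (T : Tree ι) : T.set ∈ T.blocks := by
  cases T with
  | leaf i => exact Set.mem_singleton _
  | node l r => exact Set.mem_insert _ _

theorem Tree.sub_of_mem_blocks {T : Tree ι} {D : Finset ι} (h : D ∈ T.blocks) : D ⊆ T.set := by
  induction T with
  | leaf i =>
    rw [Tree.blocks, Set.mem_singleton_iff] at h
    rw [h]
    exact Finset.Subset.refl _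
  | node l r ihl ihr =>
    rw [Tree.blocks, Set.mem_insert_iff] at h
    rcases h with h | h | h
    · rw [h]
      exact Finset.Subset.refl _
    · exact (ihl h).trans Finset.subset_union_left
    · exact (ihr h).trans Finset.subset_union_right

theorem Tree.laminar {T : Tree ι} (hT : T.Proper) {D E : Finset ι} (hD : D ∈ T.blocks)
    (hE : E ∈ T.blocks) : D ⊆ E ∨ E ⊆ D ∨ Disjoint D E := by
  induction T with
  | leaf i =>
    rw [Tree.blocks, Set.mem_singleton_iff] at hD hE
    rw [hD, hE]
    exact Or.inl (Finset.Subset.refl _)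
  | node l r ihl ihr =>
    obtain ⟨hl, hr, hd⟩ := hT
    have hD' := Tree.sub_of_mem_blocks hD
    have hE' := Tree.sub_of_mem_blocks hE
    rw [Tree.blocks, Set.mem_insert_iff] at hD hE
    rcases hD with hD | hD | hD
    · subst hD
      exact Or.inr (Or.inl hE')
    · rcases hE with hE | hE | hE
      · subst hE
        exact Or.inl hD'
      · exact ihl hl hD hE
      · exact Or.inr (Or.inr (Finset.disjoint_of_subset_left (Tree.sub_of_mem_blocks hD)
          (Finset.disjoint_of_subset_right (Tree.sub_of_mem_blocks hE) hd)))
    · rcases hE with hE | hE | hE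
      · subst hE
        exact Or.inl hD'
      · exact Or.inr (Or.inr (Finset.disjoint_of_subset_left (Tree.sub_of_mem_blocks hD)
          (Finset.disjoint_of_subset_right (Tree.sub_of_mem_blocks hE) hd.symm)))
      · exact ihr hr hD hE

end Pool.Agent.Helper84.TN
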